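import Mathlib

/-!
# The model of MP_7946c7_pr: random spanning tree in random environment on `K_n`
-/

open MeasureTheory Filter Topology

namespace RST.F

/-- The edges of the complete graph `K_n`. -/
abbrev KE (n : ℕ) : Type := (⊤ : SimpleGraph (Fin n)).edgeSet

/-- The law of the environment: i.i.d. labels, uniform on `[0,1]`, one for each edge of `K_n`. -/
noncomputable def envLaw (n : ℕ) : Measure (KE n → ℝ) :=
  Measure.pi fun _ => volume.restrict (Set.Icc (0 : ℝ) 1)

open Classical in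
/-- The Gibbs weight `exp (-β ∑_{e ∈ T} ω_e)`. -/
noncomputable def gibbs {n : ℕ} (β : ℝ) (ω : KE n → ℝ) (T : SimpleGraph (Fin n)) : ℝ :=
  Real.exp (-β * ∑ e : KE n, if (e : Sym2 (Fin n)) ∈ T.edgeSet then ω e else 0)

open Classical in
/-- The quenched law: probability that the random spanning tree is in `S`. -/
noncomputable def quenched {n : ℕ} (β : ℝ) (ω : KE n → ℝ) (S : Set (SimpleGraph (Fin n))) : ℝ :=
  (∑ T : SimpleGraph (Fin n), if T.IsTree ∧ T ∈ S then gibbs β ω T else 0) /
    ∑ T : SimpleGraph (Fin n), if T.IsTree then gibbs β ω T else 0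

/-- The averaged law. -/
noncomputable def averaged (n : ℕ) (β : ℝ) (S : Set (SimpleGraph (Fin n))) : ℝ :=
  ∫ ω, quenched β ω S ∂envLaw n

/-- With high probability under the averaged law the diameter of the tree is `n^{a + o(1)}`. -/
def DiamExponent (β : ℕ → ℝ) (a : ℝ) : Prop :=
  ∀ ε : ℝ, 0 < ε → Tendsto (fun n : ℕ => averaged n (β n)
    {T | (n : ℝ) ^ (a - ε) ≤ (T.diam : ℝ) ∧ (T.diam : ℝ) ≤ (n : ℝ) ^ (a + ε)}) atTop (𝓝 1)

end RST.F
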