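import Pool.Agent.Lib.MP_7946c7_pr.B.Defs
import Pool.Agent.Lib.MP_7946c7_pr.F.FDefs

/-!
# F01. The labels on the diagonal of `Sym2 (Fin n)` play no role

PROOF. (1) Quenched: for `ω : Sym2 (Fin n) → ℝ` and `ω' = fun e : KE n => ω e`, for a graph `T` the
edges of `T` are edges of `⊤` (`T ≤ ⊤`), so
`wtT (fun e => exp (-β ω e)) T = ∏_{e ∈ T.edgeSet} exp (-β ω e) = gibbs β ω' T`
(`Real.exp_sum`, `Finset.mul_sum`; the sum over `KE n` is a sum over the subtype), hence
`PT (fun e => exp (-β ω e)) S = quenched β ω' S`.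
(2) The restriction map `(Sym2 (Fin n) → ℝ) → (KE n → ℝ)` pushes `labLaw n` to `envLaw n` (all the
factors are the same probability measure `volume.restrict (Icc 0 1)`): e.g. via
`MeasureTheory.measurePreserving_piEquivPiSubtypeProd` followed by the first projection, or
`Measure.pi_map_restrict`/`isProjectiveMeasureFamily_pi`, or `Measure.pi_eq`.
(3) `integral_map` (the integrand is a continuous function of the labels, hence measurable).
-/

open MeasureTheory

namespace RST.F

open Classical in
private lemma F01_sum {n : ℕ} (T : SimpleGraph (Fin n)) (ω : Sym2 (Fin n) → ℝ) :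
    (∑ e : KE n, if (e : Sym2 (Fin n)) ∈ T.edgeSet then ω e else 0) =
      ∑ e : Sym2 (Fin n), if e ∈ T.edgeSet then ω e else 0 := by
  have h1 : ∑ e : Sym2 (Fin n), (if e ∈ T.edgeSet then ω e else 0) =
      ∑ e ∈ Finset.univ.filter (fun e : Sym2 (Fin n) => e ∈ (⊤ : SimpleGraph (Fin n)).edgeSet),
        (if e ∈ T.edgeSet then ω e else 0) := by
    symm
    apply Finset.sum_subset (Finset.subset_univ _)
    intro e _ he
    rw [if_neg]
    intro h
    apply he
    rw [Finset.mem_filter]
    exact ⟨Finset.mem_univ _, SimpleGraph.edgeSet_mono (le_top : T ≤ ⊤) h⟩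
  rw [h1]
  symm
  apply Finset.sum_subtype
  intro e
  simp only [Finset.mem_filter, Finset.mem_univ, true_and]

private lemma F01_wt {n : ℕ} (β : ℝ) (T : SimpleGraph (Fin n)) (ω : Sym2 (Fin n) → ℝ) :
    wtT (fun e => Real.exp (-β * ω e)) T = gibbs β (fun e : KE n => ω e) T := by
  classical
  unfold wtT gibbs
  rw [F01_sum T ω, Finset.mul_sum, Real.exp_sum]
  refine Finset.prod_congr rfl fun e _ => ?_
  split_ifs
  · rfl
  · simp

private lemma F01_univ {α : Type} (i1 i2 : Fintype α) : @Finset.univ α i1 = @Finset.univ α i2 := by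
  rw [Subsingleton.elim i1 i2]

private lemma F01_quenched {n : ℕ} (β : ℝ) (S : Set (SimpleGraph (Fin n))) (ω : Sym2 (Fin n) → ℝ) :
    PT (fun e => Real.exp (-β * ω e)) S = quenched β (fun e : KE n => ω e) S := by
  classical
  unfold PT quenched sumT
  refine congrArg₂ (fun a b : ℝ => a / b) ?_ ?_
  · refine Finset.sum_congr (F01_univ _ _) fun T _ => ?_
    by_cases h : T.IsTree ∧ T ∈ S
    · rw [if_pos h, if_pos h, F01_wt]
    · rw [if_neg h, if_neg h]
  · refine Finset.sum_congr (F01_univ _ _) fun T _ => ?_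
    by_cases h : T.IsTree
    · rw [if_pos h, if_pos ⟨h, Set.mem_univ T⟩, F01_wt]
    · rw [if_neg h, if_neg fun h' => h h'.1]

private lemma F01_prob : IsProbabilityMeasure (volume.restrict (Set.Icc (0 : ℝ) 1)) :=
  ⟨by simp⟩

private lemma F01_mp (n : ℕ) :
    MeasurePreserving (fun (ω : Sym2 (Fin n) → ℝ) (e : KE n) => ω e) (labLaw n) (envLaw n) := by
  classical
  have := F01_prob
  have h1 := measurePreserving_piEquivPiSubtypeProd
    (fun _ : Sym2 (Fin n) => volume.restrict (Set.Icc (0 : ℝ) 1))
    (fun e => e ∈ (⊤ : SimpleGraph (Fin n)).edgeSet)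
  have h2 := measurePreserving_fst
    (μ := Measure.pi fun _ : {e : Sym2 (Fin n) // e ∈ (⊤ : SimpleGraph (Fin n)).edgeSet} =>
      volume.restrict (Set.Icc (0 : ℝ) 1))
    (ν := Measure.pi fun _ : {e : Sym2 (Fin n) // ¬ e ∈ (⊤ : SimpleGraph (Fin n)).edgeSet} =>
      volume.restrict (Set.Icc (0 : ℝ) 1))
  have h3 := h2.comp h1
  unfold labLaw envLaw
  exact h3

private lemma F01_meas (n : ℕ) (β : ℝ) (S : Set (SimpleGraph (Fin n))) :
    Measurable fun ω : KE n → ℝ => quenched β ω S := by
  classical
  have hg : ∀ T : SimpleGraph (Fin n), Measurable fun ω : KE n → ℝ => gibbs β ω T := by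
    intro T
    unfold gibbs
    refine Real.measurable_exp.comp (Measurable.const_mul ?_ _)
    refine Finset.measurable_sum _ fun e _ => ?_
    split_ifs
    · exact measurable_pi_apply e
    · exact measurable_const
  unfold quenched
  refine Measurable.div ?_ ?_
  · refine Finset.measurable_sum _ fun T _ => ?_
    split_ifs
    · exact hg T
    · exact measurable_const
  · refine Finset.measurable_sum _ fun T _ => ?_
    split_ifs
    · exact hg T
    · exact measurable_const

theorem averaged_eq (n : ℕ) (β : ℝ) (S : Set (SimpleGraph (Fin n))) :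
    averaged n β S = avg n β S := by
  unfold averaged avg
  rw [← (F01_mp n).map_eq, integral_map (F01_mp n).measurable.aemeasurable
    (F01_meas n β S).aestronglyMeasurable]
  refine integral_congr_ae (Filter.Eventually.of_forall fun ω => ?_)
  exact (F01_quenched β S ω).symm

end RST.F
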