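import Pool.Agent.Lib.MP_7946c7_pr.B.Defs
import Pool.Agent.Lib.MP_7946c7_pr.F.FDefs

/-!
# F02. Q1 from the three uniform regime theorems

PROOF. `averaged n β S ≤ 1` always (`avg` is an integral over a probability measure of a function
with values in `[0,1]`: `PT` is `0 ≤ · ≤ 1` for positive conductances; if `n = 0` the set of graphs
has one element, anyway eventually `n ≥ 1`). Monotone in `S`. So `DiamExponent β a` follows if for
all `ε ∈ (0,1)` eventually `1 - ε ≤ avg n (β n) {n^{a-ε} ≤ diam ≤ n^{a+ε}}`: for given `ε₀` and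
`η` use `ε = min ε₀ η`. Regimes 1 and 3: immediate from `h1`, `h3`.
Regime 2: choose `δ ∈ (0, 1/10]` with `1 + δ < 1 + g < 4/3 - δ`, e.g. `δ = min (1/10) (min (g/2) ((1/3-g)/2))`.
Since `log (β n)/log n → 1 + g > 0` and `β n ≥ 0`, eventually `β n > 0` (`log 0 = 0`) and, with
`η' = min (δ) (ε/2)`-small, `n^{1+g-η'} ≤ β n ≤ n^{1+g+η'}`, so `n^{1+δ} ≤ β n ≤ n^{4/3-δ}` for `η'`
small enough, and `n^{1/2-g/2-η'/2} ≤ n/√(β n) ≤ n^{1/2-g/2+η'/2}`. With `h2 δ (ε/2)` and `η' ≤ ε`: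
`n^{-ε/2} n/√β ≥ n^{1/2-g/2-ε}` and `n^{ε/2} n/√β ≤ n^{1/2-g/2+ε}`.
-/

open MeasureTheory Filter Topology

namespace RST.F

section F02aux

lemma F02_prob : IsProbabilityMeasure (volume.restrict (Set.Icc (0 : ℝ) 1)) := ⟨by simp⟩

lemma F02_env_prob (n : ℕ) : IsProbabilityMeasure (envLaw n) := by
  haveI := F02_prob
  unfold envLaw
  infer_instance

lemma F02_gibbs_pos {n : ℕ} (β : ℝ) (ω : KE n → ℝ) (T : SimpleGraph (Fin n)) :
    0 < gibbs β ω T := Real.exp_pos _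

open Classical in
lemma F02_num_nonneg {n : ℕ} (β : ℝ) (ω : KE n → ℝ) (P : SimpleGraph (Fin n) → Prop)
    {hP : DecidablePred P} :
    0 ≤ ∑ T : SimpleGraph (Fin n), if P T then gibbs β ω T else 0 := by
  refine Finset.sum_nonneg fun T _ => ?_
  split_ifs
  · exact (F02_gibbs_pos β ω T).le
  · exact le_rfl

open Classical in
lemma F02_num_mono {n : ℕ} (β : ℝ) (ω : KE n → ℝ) (P Q : SimpleGraph (Fin n) → Prop)
    {hP : DecidablePred P} {hQ : DecidablePred Q} (h : ∀ T, P T → Q T) :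
    (∑ T : SimpleGraph (Fin n), if P T then gibbs β ω T else 0) ≤
      ∑ T : SimpleGraph (Fin n), if Q T then gibbs β ω T else 0 := by
  refine Finset.sum_le_sum fun T _ => ?_
  by_cases hPT : P T
  · rw [if_pos hPT, if_pos (h T hPT)]
  · rw [if_neg hPT]
    split_ifs
    · exact (F02_gibbs_pos β ω T).le
    · exact le_rfl

lemma F02_quenched_nonneg {n : ℕ} (β : ℝ) (ω : KE n → ℝ) (S : Set (SimpleGraph (Fin n))) :
    0 ≤ quenched β ω S := by
  unfold quenched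
  refine div_nonneg ?_ ?_ <;> apply F02_num_nonneg

lemma F02_quenched_le_one {n : ℕ} (β : ℝ) (ω : KE n → ℝ) (S : Set (SimpleGraph (Fin n))) :
    quenched β ω S ≤ 1 := by
  unfold quenched
  refine div_le_one_of_le₀ ?_ ?_
  · apply F02_num_mono
    exact fun T h => h.1
  · apply F02_num_nonneg

lemma F02_quenched_mono {n : ℕ} (β : ℝ) (ω : KE n → ℝ) {S S' : Set (SimpleGraph (Fin n))}
    (h : S ⊆ S') : quenched β ω S ≤ quenched β ω S' := by
  unfold quenched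
  refine div_le_div_of_nonneg_right ?_ ?_
  · apply F02_num_mono
    exact fun T hT => ⟨hT.1, h hT.2⟩
  · apply F02_num_nonneg

lemma F02_gibbs_meas {n : ℕ} (β : ℝ) (T : SimpleGraph (Fin n)) :
    Measurable fun ω : KE n → ℝ => gibbs β ω T := by
  unfold gibbs
  refine Real.measurable_exp.comp (measurable_const.mul (Finset.measurable_sum _ fun e _ => ?_))
  split_ifs
  · exact measurable_pi_apply e
  · exact measurable_const

lemma F02_quenched_meas {n : ℕ} (β : ℝ) (S : Set (SimpleGraph (Fin n))) :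
    Measurable fun ω : KE n → ℝ => quenched β ω S := by
  unfold quenched
  refine Measurable.div (Finset.measurable_sum _ fun T _ => ?_)
    (Finset.measurable_sum _ fun T _ => ?_)
  · split_ifs
    · exact F02_gibbs_meas β T
    · exact measurable_const
  · split_ifs
    · exact F02_gibbs_meas β T
    · exact measurable_const

lemma F02_quenched_int {n : ℕ} (β : ℝ) (S : Set (SimpleGraph (Fin n))) :
    Integrable (fun ω : KE n → ℝ => quenched β ω S) (envLaw n) := by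
  haveI := F02_env_prob n
  refine Integrable.of_bound (F02_quenched_meas β S).aestronglyMeasurable 1
    (Filter.Eventually.of_forall fun ω => ?_)
  rw [Real.norm_eq_abs, abs_of_nonneg (F02_quenched_nonneg β ω S)]
  exact F02_quenched_le_one β ω S

lemma F02_averaged_le_one (n : ℕ) (β : ℝ) (S : Set (SimpleGraph (Fin n))) :
    averaged n β S ≤ 1 := by
  haveI := F02_env_prob n
  unfold averaged
  calc ∫ ω, quenched β ω S ∂envLaw n ≤ ∫ _ω : KE n → ℝ, (1 : ℝ) ∂envLaw n :=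
        integral_mono (F02_quenched_int β S) (integrable_const _)
          (fun ω => F02_quenched_le_one β ω S)
    _ = 1 := by simp

lemma F02_averaged_mono (n : ℕ) (β : ℝ) {S S' : Set (SimpleGraph (Fin n))} (h : S ⊆ S') :
    averaged n β S ≤ averaged n β S' := by
  unfold averaged
  exact integral_mono (F02_quenched_int β S) (F02_quenched_int β S')
    (fun ω => F02_quenched_mono β ω h)

lemma F02_exponent (β : ℕ → ℝ) (a : ℝ)
    (h : ∀ ε : ℝ, 0 < ε → ∀ᶠ n : ℕ in atTop, 1 - ε ≤ averaged n (β n)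
      {T | (n : ℝ) ^ (a - ε) ≤ (T.diam : ℝ) ∧ (T.diam : ℝ) ≤ (n : ℝ) ^ (a + ε)}) :
    DiamExponent β a := by
  intro ε₀ hε₀
  rw [Metric.tendsto_atTop]
  intro η hη
  have hδ : 0 < min ε₀ (η / 2) := lt_min hε₀ (by linarith)
  obtain ⟨n₀, hn₀⟩ := Filter.eventually_atTop.1 ((h _ hδ).and (Filter.eventually_ge_atTop 1))
  refine ⟨n₀, fun n hn => ?_⟩
  obtain ⟨h1, h2⟩ := hn₀ n hn
  have hn1 : (1 : ℝ) ≤ n := by exact_mod_cast h2
  have hsub : {T : SimpleGraph (Fin n) | (n : ℝ) ^ (a - min ε₀ (η / 2)) ≤ (T.diam : ℝ) ∧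
      (T.diam : ℝ) ≤ (n : ℝ) ^ (a + min ε₀ (η / 2))} ⊆
      {T | (n : ℝ) ^ (a - ε₀) ≤ (T.diam : ℝ) ∧ (T.diam : ℝ) ≤ (n : ℝ) ^ (a + ε₀)} := by
    intro T hT
    have hm : min ε₀ (η / 2) ≤ ε₀ := min_le_left _ _
    exact ⟨le_trans (Real.rpow_le_rpow_of_exponent_le hn1 (by linarith)) hT.1,
      le_trans hT.2 (Real.rpow_le_rpow_of_exponent_le hn1 (by linarith))⟩
  have h3 := F02_averaged_mono n (β n) hsub
  have h4 := F02_averaged_le_one n (β n)
    {T | (n : ℝ) ^ (a - ε₀) ≤ (T.diam : ℝ) ∧ (T.diam : ℝ) ≤ (n : ℝ) ^ (a + ε₀)}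
  have h5 : min ε₀ (η / 2) ≤ η / 2 := min_le_right _ _
  rw [Real.dist_eq, abs_lt]
  constructor <;> linarith

end F02aux

theorem main_of_regimes
    (h0 : ∀ (n : ℕ) (β : ℝ) (S : Set (SimpleGraph (Fin n))), averaged n β S = avg n β S)
    (h1 : ∀ C ε : ℝ, 0 < C → 0 < ε → ∃ n₀ : ℕ, ∀ n : ℕ, n₀ ≤ n → ∀ β : ℝ, 0 ≤ β → β ≤ C * n →
      1 - ε ≤ avg n β {T | (n : ℝ) ^ (1 / 2 - ε) ≤ (T.diam : ℝ) ∧
        (T.diam : ℝ) ≤ (n : ℝ) ^ (1 / 2 + ε)})
    (h2 : ∀ δ ε : ℝ, 0 < δ → δ ≤ 1 / 10 → 0 < ε → ∃ n₀ : ℕ, ∀ n : ℕ, n₀ ≤ n → ∀ β : ℝ,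
      (n : ℝ) ^ (1 + δ) ≤ β → β ≤ (n : ℝ) ^ (4 / 3 - δ) →
      1 - ε ≤ avg n β {T | (n : ℝ) ^ (-ε) * (n / Real.sqrt β) ≤ (T.diam : ℝ) ∧
        (T.diam : ℝ) ≤ (n : ℝ) ^ ε * (n / Real.sqrt β)})
    (h3 : ∀ C ε : ℝ, 0 < C → 0 < ε → ∃ n₀ : ℕ, ∀ n : ℕ, n₀ ≤ n → ∀ β : ℝ,
      C * (n : ℝ) ^ (4 / 3 : ℝ) ≤ β →
      1 - ε ≤ avg n β {T | (n : ℝ) ^ (1 / 3 - ε) ≤ (T.diam : ℝ) ∧
        (T.diam : ℝ) ≤ (n : ℝ) ^ (1 / 3 + ε)}) :
    (∀ (C : ℝ) (β : ℕ → ℝ), 0 < C → (∀ n, 0 ≤ β n) → (∀ᶠ n : ℕ in atTop, β n ≤ C * n) →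
      DiamExponent β (1 / 2)) ∧
    (∀ (g : ℝ) (β : ℕ → ℝ), 0 < g → g < 1 / 3 → (∀ n, 0 ≤ β n) →
      Tendsto (fun n : ℕ => Real.log (β n) / Real.log n) atTop (𝓝 (1 + g)) →
      DiamExponent β (1 / 2 - g / 2)) ∧
    (∀ (C : ℝ) (β : ℕ → ℝ), 0 < C → (∀ᶠ n : ℕ in atTop, C * (n : ℝ) ^ (4 / 3 : ℝ) ≤ β n) →
      DiamExponent β (1 / 3)) := by
  refine ⟨?_, ?_, ?_⟩
  · intro C β hC hβ hle
    refine F02_exponent β _ fun ε hε => ?_
    obtain ⟨n₀, hn₀⟩ := h1 C ε hC hε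
    filter_upwards [hle, Filter.eventually_ge_atTop n₀] with n hn hn'
    rw [h0]
    exact hn₀ n hn' (β n) (hβ n) hn
  · intro g β hg hg3 hβ hlim
    refine F02_exponent β _ fun ε hε => ?_
    obtain ⟨δ, hδ0, hδ1, hδ2, hδ3⟩ : ∃ δ : ℝ, 0 < δ ∧ δ ≤ 1 / 10 ∧ δ ≤ g / 2 ∧
        δ ≤ (1 / 3 - g) / 2 :=
      ⟨min (1 / 10) (min (g / 2) ((1 / 3 - g) / 2)),
        lt_min (by norm_num) (lt_min (by linarith) (by linarith)), min_le_left _ _,
        (min_le_right _ _).trans (min_le_left _ _), (min_le_right _ _).trans (min_le_right _ _)⟩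
    obtain ⟨η, hη0, hη1, hη2, hη3⟩ : ∃ η : ℝ, 0 < η ∧ η ≤ ε ∧ η ≤ g / 2 ∧
        η ≤ (1 / 3 - g) / 2 :=
      ⟨min ε (min (g / 2) ((1 / 3 - g) / 2)),
        lt_min hε (lt_min (by linarith) (by linarith)), min_le_left _ _,
        (min_le_right _ _).trans (min_le_left _ _), (min_le_right _ _).trans (min_le_right _ _)⟩
    obtain ⟨n₀, hn₀⟩ := h2 δ (ε / 2) hδ0 hδ1 (by linarith)
    have hev : ∀ᶠ n : ℕ in atTop, |Real.log (β n) / Real.log n - (1 + g)| < η := by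
      have := (Metric.tendsto_nhds.1 hlim) η hη0
      simpa [Real.dist_eq] using this
    filter_upwards [hev, Filter.eventually_ge_atTop n₀, Filter.eventually_ge_atTop 2]
      with n hn hn' hn2
    have hn1 : (1 : ℝ) ≤ n := by exact_mod_cast (by omega : 1 ≤ n)
    have hnp : (0 : ℝ) < n := by linarith
    have hlog : 0 < Real.log n := Real.log_pos (by exact_mod_cast (by omega : 1 < n))
    rw [abs_lt] at hn
    have hlo : (1 + g - η) * Real.log n ≤ Real.log (β n) := by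
      have : 1 + g - η ≤ Real.log (β n) / Real.log n := by linarith [hn.1]
      rwa [le_div_iff₀ hlog] at this
    have hhi : Real.log (β n) ≤ (1 + g + η) * Real.log n := by
      have : Real.log (β n) / Real.log n ≤ 1 + g + η := by linarith [hn.2]
      rwa [div_le_iff₀ hlog] at this
    have hβp : 0 < β n := by
      rcases (hβ n).lt_or_eq with h | h
      · exact h
      · exfalso
        rw [← h, Real.log_zero] at hlo
        have : 0 < (1 + g - η) * Real.log n := mul_pos (by linarith) hlog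
        linarith
    have hβlo : (n : ℝ) ^ (1 + g - η) ≤ β n := by
      rw [← Real.exp_log hβp, Real.rpow_def_of_pos hnp]
      exact Real.exp_le_exp.2 (by linarith [mul_comm (Real.log n) (1 + g - η)])
    have hβhi : β n ≤ (n : ℝ) ^ (1 + g + η) := by
      rw [← Real.exp_log hβp, Real.rpow_def_of_pos hnp]
      exact Real.exp_le_exp.2 (by linarith [mul_comm (Real.log n) (1 + g + η)])
    have key := hn₀ n hn' (β n)
      (le_trans (Real.rpow_le_rpow_of_exponent_le hn1 (by linarith)) hβlo)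
      (le_trans hβhi (Real.rpow_le_rpow_of_exponent_le hn1 (by linarith)))
    have hsq : 0 < Real.sqrt (β n) := Real.sqrt_pos.2 hβp
    have hslo : (n : ℝ) ^ ((1 + g - η) / 2) ≤ Real.sqrt (β n) := by
      rw [Real.le_sqrt (by positivity) hβp.le, ← Real.rpow_natCast, ← Real.rpow_mul hnp.le]
      refine le_trans (le_of_eq ?_) hβlo
      congr 1
      push_cast
      ring
    have hshi : Real.sqrt (β n) ≤ (n : ℝ) ^ ((1 + g + η) / 2) := by
      rw [Real.sqrt_le_left (by positivity), ← Real.rpow_natCast, ← Real.rpow_mul hnp.le]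
      refine le_trans hβhi (le_of_eq ?_)
      congr 1
      push_cast
      ring
    have hsub : {T : SimpleGraph (Fin n) |
        (n : ℝ) ^ (-(ε / 2)) * (n / Real.sqrt (β n)) ≤ (T.diam : ℝ) ∧
        (T.diam : ℝ) ≤ (n : ℝ) ^ (ε / 2) * (n / Real.sqrt (β n))} ⊆
        {T | (n : ℝ) ^ (1 / 2 - g / 2 - ε) ≤ (T.diam : ℝ) ∧
          (T.diam : ℝ) ≤ (n : ℝ) ^ (1 / 2 - g / 2 + ε)} := by
      intro T hT
      constructor
      · refine le_trans ?_ hT.1
        have e1 : (n : ℝ) / (n : ℝ) ^ ((1 + g + η) / 2) ≤ n / Real.sqrt (β n) :=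
          div_le_div_of_nonneg_left hnp.le hsq hshi
        have e2 : (n : ℝ) / (n : ℝ) ^ ((1 + g + η) / 2) = (n : ℝ) ^ (1 - (1 + g + η) / 2) := by
          rw [Real.rpow_sub hnp, Real.rpow_one]
        calc (n : ℝ) ^ (1 / 2 - g / 2 - ε)
            ≤ (n : ℝ) ^ (-(ε / 2) + (1 - (1 + g + η) / 2)) :=
              Real.rpow_le_rpow_of_exponent_le hn1 (by linarith)
          _ = (n : ℝ) ^ (-(ε / 2)) * (n : ℝ) ^ (1 - (1 + g + η) / 2) := Real.rpow_add hnp _ _
          _ ≤ (n : ℝ) ^ (-(ε / 2)) * (n / Real.sqrt (β n)) := by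
              rw [← e2]
              exact mul_le_mul_of_nonneg_left e1 (by positivity)
      · refine le_trans hT.2 ?_
        have e1 : n / Real.sqrt (β n) ≤ (n : ℝ) / (n : ℝ) ^ ((1 + g - η) / 2) :=
          div_le_div_of_nonneg_left hnp.le (by positivity) hslo
        have e2 : (n : ℝ) / (n : ℝ) ^ ((1 + g - η) / 2) = (n : ℝ) ^ (1 - (1 + g - η) / 2) := by
          rw [Real.rpow_sub hnp, Real.rpow_one]
        calc (n : ℝ) ^ (ε / 2) * (n / Real.sqrt (β n))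
            ≤ (n : ℝ) ^ (ε / 2) * (n : ℝ) ^ (1 - (1 + g - η) / 2) := by
              rw [← e2]
              exact mul_le_mul_of_nonneg_left e1 (by positivity)
          _ = (n : ℝ) ^ (ε / 2 + (1 - (1 + g - η) / 2)) := (Real.rpow_add hnp _ _).symm
          _ ≤ (n : ℝ) ^ (1 / 2 - g / 2 + ε) :=
              Real.rpow_le_rpow_of_exponent_le hn1 (by linarith)
    have h6 := F02_averaged_mono n (β n) hsub
    rw [← h0] at key
    linarith
  · intro C β hC hle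
    refine F02_exponent β _ fun ε hε => ?_
    obtain ⟨n₀, hn₀⟩ := h3 C ε hC hε
    filter_upwards [hle, Filter.eventually_ge_atTop n₀] with n hn hn'
    rw [h0]
    exact hn₀ n hn' (β n) hn

end RST.F
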