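import Pool.Agent.Lib.MP_7946c7_pr.A.A11
import Pool.Agent.Lib.MP_7946c7_pr.F.F01
import Pool.Agent.Lib.MP_7946c7_pr.F.F02
import Pool.Agent.Lib.MP_7946c7_pr.R.Main

/-!
# Final assembly: the diameter of the random spanning tree in random environment on `K_n`
-/

open MeasureTheory Filter Topology

namespace RST.F

/-- Q1 of the problem: the three regimes. -/
theorem main :
    (∀ (C : ℝ) (β : ℕ → ℝ), 0 < C → (∀ n, 0 ≤ β n) → (∀ᶠ n : ℕ in atTop, β n ≤ C * n) →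
      DiamExponent β (1 / 2)) ∧
    (∀ (g : ℝ) (β : ℕ → ℝ), 0 < g → g < 1 / 3 → (∀ n, 0 ≤ β n) →
      Tendsto (fun n : ℕ => Real.log (β n) / Real.log n) atTop (𝓝 (1 + g)) →
      DiamExponent β (1 / 2 - g / 2)) ∧
    (∀ (C : ℝ) (β : ℕ → ℝ), 0 < C → (∀ᶠ n : ℕ in atTop, C * (n : ℝ) ^ (4 / 3 : ℝ) ≤ β n) →
      DiamExponent β (1 / 3)) :=
  main_of_regimes averaged_eq (fun C ε hC hε => regime1 C ε hC hε)
    (fun δ ε hδ hδ1 hε => A.regime2 δ ε hδ hδ1 hε) (fun C ε hC hε => regime3 C ε hC hε)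

end RST.F
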